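import Pool.Agent.PFE.StmtsE1

/-!
# Row pfe:SFE, the Frobenius system with a separating element over a field
-/

open scoped BigOperators

noncomputable section

namespace Pool.Agent.PFE.H21

open Pool.Agent.PFC.B1 (FS Split)
open Pool.Agent.PFD (RF)

theorem p_tr {R A X S : Type} [CommRing R] [Ring A] [Algebra R A] [Group X] [Fintype X] [Ring S]
    [Algebra R S] {y : A} {l : ℕ} {χ : X →* R} (L : LS R A X S y l χ) {x x' : X} (h : x = x')
    {a : A} (ha : a ∈ Nx y χ x) (ha' : a ∈ Nx y χ x') : L.p x ⟨a, ha⟩ = L.p x' ⟨a, ha'⟩ := by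
  subst h
  rfl

theorem sfe (hF : StfStmt) : SfeStmt := by
  intro K A X S J Ω Ω' _ _ _ _ _ _ _ _ _ _ y l χ D L
  obtain ⟨f, hg', hsy, ht1, hb, hb', hel⟩ := hF K A X S J Ω Ω' y l χ D.toYd L
  have hw : D.w ∈ Nx y χ 1 := by
    show y * D.w = χ 1 • (D.w * y)
    rw [map_one, one_smul]
    exact D.wy
  have hN : ∀ o, D.g o * D.w * D.g' o ∈ Nx y χ 1 := by
    intro o
    have h1 := Nx_mul (Nx_mul (show D.g o ∈ Nx y χ (D.deg o) from D.gy o) hw) (hg' o)
    rwa [mul_one, mul_inv_cancel] at h1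
  have hsum : (∑ o, D.g o * D.w * D.g' o) + Tx y l (χ 1) (∑ o, D.h o * D.w * D.h' o) = 1 := by
    rw [← D.rw]
    unfold Yd.RT
    rw [Fintype.sum_sum_type]
    congr 1
    rw [Fintype.sum_prod_type, Finset.sum_comm, Tx, ← Fin.sum_univ_eq_sum_range
      (fun j => χ 1 ^ (l - 1 - j) • (y ^ j * (∑ o, D.h o * D.w * D.h' o) * y ^ (l - 1 - j)))]
    refine Finset.sum_congr rfl fun i _ => ?_
    rw [map_one, one_pow, one_smul, Finset.mul_sum, Finset.sum_mul]
    refine Finset.sum_congr rfl fun o _ => ?_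
    show y ^ (i : ℕ) * (D.h o * D.w * D.h' o) * y ^ (l - 1 - (i : ℕ)) =
      (y ^ (i : ℕ) * D.h o) * D.w * (D.h' o * y ^ (l - 1 - (i : ℕ)))
    simp only [mul_assoc]
  have hNs : (∑ o, D.g o * D.w * D.g' o) ∈ Nx y χ 1 := Submodule.sum_mem _ fun o _ => hN o
  have hT : Tx y l (χ 1) (∑ o, D.h o * D.w * D.h' o) ∈ Nx y χ 1 := by
    have h1 : Tx y l (χ 1) (∑ o, D.h o * D.w * D.h' o) =
        1 - ∑ o, D.g o * D.w * D.g' o := by
      rw [← hsum]
      abel
    rw [h1]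
    exact Submodule.sub_mem _ (Nx_one y χ) hNs
  have hsep : ∑ o, f.b o * L.p 1 ⟨D.w, hw⟩ * f.b' o = 1 := by
    have h1 : ∀ o, f.b o * L.p 1 ⟨D.w, hw⟩ * f.b' o =
        L.p 1 ⟨D.g o * D.w * D.g' o, hN o⟩ := by
      intro o
      rw [hb, hb', L.mul, L.mul]
      exact p_tr L (by rw [mul_one, mul_inv_cancel]) _ _
    have h2 : ∑ o, L.p 1 ⟨D.g o * D.w * D.g' o, hN o⟩ =
        L.p 1 ⟨∑ o, D.g o * D.w * D.g' o, hNs⟩ := by
      rw [← map_sum]
      congr 1
      apply Subtype.ext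
      simp
    have h3 : L.p 1 ⟨Tx y l (χ 1) (∑ o, D.h o * D.w * D.h' o), hT⟩ = 0 := by
      rw [L.ker]
      exact Submodule.subset_span (Or.inl ⟨_, rfl⟩)
    have h4 : L.p 1 ⟨∑ o, D.g o * D.w * D.g' o, hNs⟩ +
        L.p 1 ⟨Tx y l (χ 1) (∑ o, D.h o * D.w * D.h' o), hT⟩ = 1 := by
      rw [← map_add, ← L.one]
      congr 1
      apply Subtype.ext
      exact hsum
    rw [h3, add_zero] at h4
    rw [← h4, ← h2]
    exact Finset.sum_congr rfl fun o _ => h1 o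
  exact ⟨{
    f := f
    sy := hsy
    t1 := ht1
    deg := D.deg
    gb := fun o => by
      rw [hb]
      exact L.pc _ _
    gb' := fun o => by
      rw [hb']
      exact L.pc _ _
    w := L.p 1 ⟨D.w, hw⟩
    w1 := L.pc _ _
    sep := hsep
    ed := rfl
    eb := hb
    eb' := fun o h => hb' o
    el := hel
    ew := fun h => rfl }⟩

end Pool.Agent.PFE.H21
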