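import Pool.Agent.PFE.StmtsE2

/-!
# Row pfe:XRD, the special fibre of the bimodule with a basis
-/

open scoped BigOperators

noncomputable section

namespace Pool.Agent.PFE.H21

open MulOpposite
open Pool.Agent.PFC.B1 (BiM)
open Pool.Agent.PFD.D2
open Pool.Agent.PFD.D2b (wrp)

section one

variable {R Γ W N X Ω Ω' : Type} [CommRing R] [CommRing Γ] [Algebra R Γ] [CommGroup W]
  [Fintype W] [AddCommGroup N] [Module R N] [Group X] [Fintype Ω] [Fintype Ω']
  [MulAction (W × W) Ω] [MulAction (W × W) Ω'] {l : ℕ} {G : GY R Γ W l} {χ : X →* R}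
  {B : BiM R Γ N}

/-- two elements with the same coordinates are equal -/
theorem x_ext (Y : YFr Ω Ω' G χ B LinearMap.id) {n n' : N}
    (h1 : ∀ o i, i < l → Y.c o (B.lm (G.y ^ (l - 1 - i)) n) = Y.c o (B.lm (G.y ^ (l - 1 - i)) n'))
    (h2 : ∀ o i k, i < l → k < l →
      Y.d o (B.lm (G.y ^ (l - 1 - i)) (B.rm (op (G.y ^ (l - 1 - k))) n)) =
      Y.d o (B.lm (G.y ^ (l - 1 - i)) (B.rm (op (G.y ^ (l - 1 - k))) n'))) : n = n' := by
  have e : ∀ x : N, (LinearMap.id : N →ₗ[R] N) x = x := fun x => rfl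
  rw [← e n, ← e n', ← Y.fr n, ← Y.fr n']
  congr 1
  · refine Finset.sum_congr rfl fun o _ => Finset.sum_congr rfl fun i hi => ?_
    rw [h1 o i (Finset.mem_range.1 hi)]
  · refine Finset.sum_congr rfl fun o _ => Finset.sum_congr rfl fun i hi =>
      Finset.sum_congr rfl fun k hk => ?_
    rw [h2 o i k (Finset.mem_range.1 hi) (Finset.mem_range.1 hk)]

theorem l_big (_ : 1 ≤ l) {m : ℕ} (hm : l ≤ m) (n : N) : B.lm (G.y ^ m) n = 0 := by
  rw [pow_eq_zero_of_le hm G.yl, map_zero]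
  rfl

theorem r_big (_ : 1 ≤ l) {m : ℕ} (hm : l ≤ m) (n : N) : B.rm (op (G.y ^ m)) n = 0 := by
  rw [pow_eq_zero_of_le hm G.yl, op_zero, map_zero]
  rfl

theorem l_l (a b : Γ) (n : N) : B.lm a (B.lm b n) = B.lm (a * b) n := by
  rw [map_mul]
  rfl

theorem r_r (a b : Γ) (n : N) : B.rm (op a) (B.rm (op b) n) = B.rm (op (a * b)) n := by
  rw [mul_comm a b, op_mul, map_mul]
  rfl

theorem w_l (w : W × W) (a : Γ) (n : N) : B.lm a (wrp G.om B w n) = wrp G.om B w (B.lm a n) := by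
  show B.lm a (B.lm (G.om w.1) (B.rm (op (G.om w.2⁻¹)) n)) =
    B.lm (G.om w.1) (B.rm (op (G.om w.2⁻¹)) (B.lm a n))
  rw [l_l, ← B.comm, l_l, mul_comm]

theorem w_r (w : W × W) (a : Γ) (n : N) :
    B.rm (op a) (wrp G.om B w n) = wrp G.om B w (B.rm (op a) n) := by
  show B.rm (op a) (B.lm (G.om w.1) (B.rm (op (G.om w.2⁻¹)) n)) =
    B.lm (G.om w.1) (B.rm (op (G.om w.2⁻¹)) (B.rm (op a) n))
  rw [← B.comm, r_r, r_r, mul_comm]

theorem c_w (Y : YFr Ω Ω' G χ B LinearMap.id) (w : W × W) (o : Ω) (n : N) :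
    Y.c o (wrp G.om B w n) = Y.c (w⁻¹ • o) n := by
  have := Y.cw w (w⁻¹ • o) n
  rwa [smul_inv_smul] at this

theorem d_w (Y : YFr Ω Ω' G χ B LinearMap.id) (w : W × W) (o : Ω') (n : N) :
    Y.d o (wrp G.om B w n) = Y.d (w⁻¹ • o) n := by
  have := Y.dw w (w⁻¹ • o) n
  rwa [smul_inv_smul] at this

end one

/-- XRD -/
theorem xrd : XrdStmt := by
  intro R F Γ Γ0 W X Ω Ω' M M0 _ _ c _ _ _ _ _ _ _ _ _ _ _ _ _ _ _ l G G0 f χ χ0 B B0 Fr Fr0 hl
    hy hom hχ hdeg
  classical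
  -- the map
  let s : M → M0 := fun n => Fr0.toYFr.el (fun o i => c.κ (Fr.c o (B.lm (G.y ^ (l - 1 - i)) n)))
    (fun o i k => c.κ (Fr.d o (B.lm (G.y ^ (l - 1 - i)) (B.rm (op (G.y ^ (l - 1 - k))) n))))
  -- the coordinates
  have P1 : ∀ (n : M) (o : Ω) (m : ℕ),
      Fr0.c o (B0.lm (G0.y ^ m) (s n)) = c.κ (Fr.c o (B.lm (G.y ^ m) n)) := by
    intro n o m
    rcases lt_or_ge m l with hm | hm
    · have h := Fr0.un1 (fun o i => c.κ (Fr.c o (B.lm (G.y ^ (l - 1 - i)) n)))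
        (fun o i k => c.κ (Fr.d o (B.lm (G.y ^ (l - 1 - i)) (B.rm (op (G.y ^ (l - 1 - k))) n))))
        o (l - 1 - m) (by omega)
      have e : l - 1 - (l - 1 - m) = m := by omega
      simp only [e] at h
      exact h
    · rw [l_big hl hm, l_big hl hm, map_zero, map_zero, map_zero]
  have P2 : ∀ (n : M) (o : Ω') (a b : ℕ),
      Fr0.d o (B0.lm (G0.y ^ a) (B0.rm (op (G0.y ^ b)) (s n))) =
        c.κ (Fr.d o (B.lm (G.y ^ a) (B.rm (op (G.y ^ b)) n))) := by
    intro n o a b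
    rcases lt_or_ge a l with ha | ha
    · rcases lt_or_ge b l with hb | hb
      · have h := Fr0.un2 (fun o i => c.κ (Fr.c o (B.lm (G.y ^ (l - 1 - i)) n)))
          (fun o i k => c.κ (Fr.d o (B.lm (G.y ^ (l - 1 - i)) (B.rm (op (G.y ^ (l - 1 - k))) n))))
          o (l - 1 - a) (l - 1 - b) (by omega) (by omega)
        have e : l - 1 - (l - 1 - a) = a := by omega
        have e' : l - 1 - (l - 1 - b) = b := by omega
        simp only [e, e'] at h
        exact h
      · rw [r_big hl hb, r_big hl hb, map_zero, map_zero, map_zero, map_zero, map_zero]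
    · rw [l_big hl ha, l_big hl ha, map_zero, map_zero, map_zero]
  have ext0 : ∀ {x x' : M0}, (∀ o m, Fr0.c o (B0.lm (G0.y ^ m) x) = Fr0.c o (B0.lm (G0.y ^ m) x')) →
      (∀ o a b, Fr0.d o (B0.lm (G0.y ^ a) (B0.rm (op (G0.y ^ b)) x)) =
        Fr0.d o (B0.lm (G0.y ^ a) (B0.rm (op (G0.y ^ b)) x'))) → x = x' := fun {x x'} h1 h2 =>
    x_ext Fr0.toYFr (fun o i _ => h1 o _) (fun o i k _ _ => h2 o _ _)
  have sadd : ∀ a b, s (a + b) = s a + s b := by
    intro a b
    refine ext0 (fun o m => ?_) (fun o i k => ?_)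
    · rw [P1, map_add, map_add, map_add, map_add, map_add, P1, P1]
    · rw [P2, map_add, map_add, map_add, map_add, map_add, map_add, map_add, P2, P2]
  have ssc : ∀ (r : R) x, s (r • x) = c.κ r • s x := by
    intro r x
    refine ext0 (fun o m => ?_) (fun o i k => ?_)
    · rw [P1, map_smul, map_smul, smul_eq_mul, map_mul, map_smul, map_smul, P1, smul_eq_mul]
    · rw [P2, map_smul, map_smul, map_smul, smul_eq_mul, map_mul, map_smul, map_smul, map_smul, P2,
        smul_eq_mul]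
  have sly : ∀ x, s (B.lm G.y x) = B0.lm G0.y (s x) := by
    intro x
    refine ext0 (fun o m => ?_) (fun o i k => ?_)
    · rw [P1, l_l, l_l, ← pow_succ, ← pow_succ, P1]
    · rw [P2, ← B.comm, l_l, ← pow_succ, ← B0.comm, l_l, ← pow_succ, P2]
  have sry : ∀ x, s (B.rm (op G.y) x) = B0.rm (op G0.y) (s x) := by
    intro x
    refine ext0 (fun o m => ?_) (fun o i k => ?_)
    · have hu : χ0 (Fr0.deg o) ≠ 0 := by
        intro h0
        have h1 : χ0 (Fr0.deg o) * χ0 (Fr0.deg o)⁻¹ = 1 := by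
          rw [← map_mul, mul_inv_cancel, map_one]
        rw [h0, zero_mul] at h1
        exact zero_ne_one h1
      refine mul_left_cancel₀ hu ?_
      rw [B0.comm, ← Fr0.cy, l_l, ← pow_succ', P1, P1, B.comm, ← hχ, ← hdeg, ← map_mul,
        ← Fr.cy, l_l, ← pow_succ']
    · rw [P2, r_r, r_r, ← pow_succ, ← pow_succ, P2]
  have sw : ∀ w x, s (wrp G.om B w x) = wrp G0.om B0 w (s x) := by
    intro w x
    refine ext0 (fun o m => ?_) (fun o i k => ?_)
    · rw [P1, w_l, w_l, c_w Fr.toYFr, c_w Fr0.toYFr, P1]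
    · rw [P2, w_r, w_l, w_r, w_l, d_w Fr.toYFr, d_w Fr0.toYFr, P2]
  have slw : ∀ u x, s (B.lm (G.om u) x) = B0.lm (G0.om u) (s x) := by
    intro u x
    have h := sw (u, 1) x
    have e1 : ∀ x, wrp G.om B (u, 1) x = B.lm (G.om u) x := by
      intro x
      show B.lm (G.om u) (B.rm (op (G.om (1 : W)⁻¹)) x) = _
      rw [inv_one, map_one, op_one, map_one]
      rfl
    have e2 : ∀ x, wrp G0.om B0 (u, 1) x = B0.lm (G0.om u) x := by
      intro x
      show B0.lm (G0.om u) (B0.rm (op (G0.om (1 : W)⁻¹)) x) = _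
      rw [inv_one, map_one, op_one, map_one]
      rfl
    rwa [e1, e2] at h
  have srw : ∀ u x, s (B.rm (op (G.om u)) x) = B0.rm (op (G0.om u)) (s x) := by
    intro u x
    have h := sw (1, u⁻¹) x
    have e1 : ∀ x, wrp G.om B (1, u⁻¹) x = B.rm (op (G.om u)) x := by
      intro x
      show B.lm (G.om (1 : W)) (B.rm (op (G.om (u⁻¹)⁻¹)) x) = _
      rw [inv_inv, map_one, map_one]
      rfl
    have e2 : ∀ x, wrp G0.om B0 (1, u⁻¹) x = B0.rm (op (G0.om u)) x := by
      intro x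
      show B0.lm (G0.om (1 : W)) (B0.rm (op (G0.om (u⁻¹)⁻¹)) x) = _
      rw [inv_inv, map_one, map_one]
      rfl
    rwa [e1, e2] at h
  have slp : ∀ (k : ℕ) x, s (B.lm (G.y ^ k) x) = B0.lm (G0.y ^ k) (s x) := by
    intro k
    induction k with
    | zero =>
      intro x
      rw [pow_zero, pow_zero, map_one, map_one]
      rfl
    | succ k ih =>
      intro x
      rw [pow_succ, pow_succ, ← l_l, ← l_l, ih, sly]
  have srp : ∀ (k : ℕ) x, s (B.rm (op (G.y ^ k)) x) = B0.rm (op (G0.y ^ k)) (s x) := by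
    intro k
    induction k with
    | zero =>
      intro x
      rw [pow_zero, pow_zero, op_one, map_one, op_one, map_one]
      rfl
    | succ k ih =>
      intro x
      rw [pow_succ, pow_succ, ← r_r, ← r_r, ih, sry]
  have s0 : s 0 = 0 := by
    have := sadd 0 0
    rw [add_zero] at this
    exact left_eq_add.1 this
  have ssum : ∀ {ι : Type} (t : Finset ι) (g : ι → M), s (∑ i ∈ t, g i) = ∑ i ∈ t, s (g i) := by
    intro ι t g
    exact map_sum (⟨⟨s, s0⟩, sadd⟩ : M →+ M0) g t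
  have fsm : ∀ (r : R) (x : Γ), f.q (r • x) = c.κ r • f.q x := by
    intro r x
    rw [Algebra.smul_def, map_mul, f.sc, ← Algebra.smul_def]
  have hlm : ∀ γ x, s (B.lm γ x) = B0.lm (f.q γ) (s x) := by
    intro γ x
    conv_lhs => rw [← G.ex γ]
    conv_rhs => rw [← G.ex γ]
    rw [map_sum, map_sum, map_sum, LinearMap.sum_apply, LinearMap.sum_apply, ssum]
    refine Finset.sum_congr rfl fun k _ => ?_
    rw [map_sum, map_sum, map_sum, LinearMap.sum_apply, LinearMap.sum_apply, ssum]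
    refine Finset.sum_congr rfl fun w _ => ?_
    rw [map_smul, LinearMap.smul_apply, ssc, fsm, map_smul, LinearMap.smul_apply, ← l_l, slp, slw,
      l_l, map_mul f.q, map_pow f.q, hy, hom]
  have hrm : ∀ γ x, s (B.rm (op γ) x) = B0.rm (op (f.q γ)) (s x) := by
    intro γ x
    conv_lhs => rw [← G.ex γ]
    conv_rhs => rw [← G.ex γ]
    rw [map_sum, Finset.op_sum, Finset.op_sum, map_sum, map_sum, LinearMap.sum_apply,
      LinearMap.sum_apply, ssum]
    refine Finset.sum_congr rfl fun k _ => ?_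
    rw [map_sum, Finset.op_sum, Finset.op_sum, map_sum, map_sum, LinearMap.sum_apply,
      LinearMap.sum_apply, ssum]
    refine Finset.sum_congr rfl fun w _ => ?_
    rw [op_smul, map_smul, LinearMap.smul_apply, ssc, fsm, op_smul, map_smul, LinearMap.smul_apply,
      ← r_r, srp, srw, r_r, map_mul f.q, map_pow f.q, hy, hom]
  have hsurj : Function.Surjective s := by
    intro x0
    choose g hg using c.surj
    refine ⟨Fr.toYFr.el (fun o i => g (Fr0.c o (B0.lm (G0.y ^ (l - 1 - i)) x0)))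
      (fun o i k => g (Fr0.d o (B0.lm (G0.y ^ (l - 1 - i))
        (B0.rm (op (G0.y ^ (l - 1 - k))) x0)))), ?_⟩
    refine x_ext Fr0.toYFr (fun o i hi => ?_) (fun o i k hi hk => ?_)
    · rw [P1, Fr.un1 _ _ o i hi, hg]
    · rw [P2, Fr.un2 _ _ o i k hi hk, hg]
  have hker : ∀ x, s x = 0 → ∃ y, x = c.π • y := by
    intro n hn
    have h1 : ∀ o m, ∃ t, Fr.c o (B.lm (G.y ^ m) n) = c.π * t := by
      intro o m
      rw [← c.ker, ← P1, hn, map_zero, map_zero]
    have h2 : ∀ o a b, ∃ t, Fr.d o (B.lm (G.y ^ a) (B.rm (op (G.y ^ b)) n)) = c.π * t := by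
      intro o a b
      rw [← c.ker, ← P2, hn, map_zero, map_zero, map_zero]
    choose t1 ht1 using h1
    choose t2 ht2 using h2
    refine ⟨Fr.toYFr.el (fun o i => t1 o (l - 1 - i)) (fun o i k => t2 o (l - 1 - i) (l - 1 - k)),
      ?_⟩
    have h3 := Fr.fr n
    rw [LinearMap.id_apply] at h3
    rw [← h3]
    unfold YFr.el
    simp only [ht1, ht2, smul_add, Finset.smul_sum, mul_smul]
  exact ⟨{ s := ⟨⟨s, s0⟩, sadd⟩, sc := ssc, lm := hlm, rm := hrm, surj := hsurj, ker := hker }⟩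

end Pool.Agent.PFE.H21
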